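import Pool.Agent.N782.GN.StmV

/-!
# Project GN (helper782), part E: averaging over squares, the phase in the class, and the bound for one square
-/

set_option autoImplicit false

namespace Pool.Agent.N106.GN

open Finset
open Pool.Agent.N782.GN

/-- the shift by `q (a + b i)` -/
def sh (q : ℕ) (d : ℕ × ℕ) : ZI := ⟨(q : ℤ) * d.1, (q : ℤ) * d.2⟩

theorem avg (S G : Finset ZI) (H q : ℕ) (F : ZI → ℂ) (hF : ∀ z, ‖F z‖ ≤ 1)
    (hG : ∀ s ∈ G, ∀ d ∈ range H ×ˢ range H, s + sh q d ∈ S) (hH : 1 ≤ H) :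
    ‖∑ t ∈ S, F t‖ ≤ ((S.card : ℝ) - G.card) +
      (1 / (H : ℝ) ^ 2) * ∑ s ∈ G, ‖∑ d ∈ range H ×ˢ range H, F (s + sh q d)‖ := by
  classical
  have key : ∀ d ∈ range H ×ˢ range H,
      ‖∑ t ∈ S, F t - ∑ s ∈ G, F (s + sh q d)‖ ≤ (S.card : ℝ) - G.card := by
    intro d hd
    have hinj : Set.InjOn (fun s : ZI => s + sh q d) (G : Set ZI) := fun a _ b _ h => add_right_cancel h
    have hsub : G.image (fun s : ZI => s + sh q d) ⊆ S := by
      intro x hx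
      obtain ⟨s, hs, rfl⟩ := mem_image.1 hx
      exact hG s hs d hd
    have h1 : ∑ s ∈ G, F (s + sh q d) = ∑ t ∈ G.image (fun s : ZI => s + sh q d), F t := by
      rw [sum_image hinj]
    have h2 : ∑ t ∈ S, F t - ∑ s ∈ G, F (s + sh q d) =
        ∑ t ∈ S \ G.image (fun s : ZI => s + sh q d), F t := by
      rw [h1, ← sum_sdiff hsub]
      ring
    rw [h2]
    calc ‖∑ t ∈ S \ G.image (fun s : ZI => s + sh q d), F t‖
        ≤ ∑ t ∈ S \ G.image (fun s : ZI => s + sh q d), ‖F t‖ := norm_sum_le _ _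
      _ ≤ ∑ t ∈ S \ G.image (fun s : ZI => s + sh q d), 1 := sum_le_sum fun t _ => hF t
      _ = ((S \ G.image (fun s : ZI => s + sh q d)).card : ℝ) := by simp
      _ = (S.card : ℝ) - G.card := by
          rw [card_sdiff_of_subset hsub, card_image_of_injOn hinj, Nat.cast_sub]
          rw [← card_image_of_injOn hinj]
          exact card_le_card hsub
  have hH2 : (0 : ℝ) < (H : ℝ) ^ 2 := by positivity
  have hcard : ((range H ×ˢ range H).card : ℝ) = (H : ℝ) ^ 2 := by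
    rw [card_product, card_range]
    push_cast
    ring
  have h3 : ((H : ℝ) ^ 2 : ℝ) * ‖∑ t ∈ S, F t‖ ≤ (H : ℝ) ^ 2 * ((S.card : ℝ) - G.card) +
      ∑ s ∈ G, ‖∑ d ∈ range H ×ˢ range H, F (s + sh q d)‖ := by
    have e1 : (((H : ℝ) ^ 2 : ℝ) : ℂ) * ∑ t ∈ S, F t =
        ∑ d ∈ range H ×ˢ range H, (∑ t ∈ S, F t - ∑ s ∈ G, F (s + sh q d)) +
        ∑ s ∈ G, ∑ d ∈ range H ×ˢ range H, F (s + sh q d) := by
      rw [sum_sub_distrib, sum_comm (s := G), sum_const, nsmul_eq_mul]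
      rw [← hcard]
      push_cast
      ring
    have e2 : ((H : ℝ) ^ 2 : ℝ) * ‖∑ t ∈ S, F t‖ = ‖(((H : ℝ) ^ 2 : ℝ) : ℂ) * ∑ t ∈ S, F t‖ := by
      rw [norm_mul, Complex.norm_real, Real.norm_of_nonneg hH2.le]
    rw [e2, e1]
    refine (norm_add_le _ _).trans (add_le_add ?_ (norm_sum_le _ _))
    refine (norm_sum_le _ _).trans ?_
    refine (sum_le_sum key).trans ?_
    rw [sum_const, nsmul_eq_mul, hcard]
  have h4 : ‖∑ t ∈ S, F t‖ ≤ ((H : ℝ) ^ 2 * ((S.card : ℝ) - G.card) +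
      ∑ s ∈ G, ‖∑ d ∈ range H ×ˢ range H, F (s + sh q d)‖) / (H : ℝ) ^ 2 := by
    rw [le_div_iff₀ hH2, mul_comm]
    exact h3
  refine h4.trans (le_of_eq ?_)
  field_simp

theorem norm_coe (t : ZI) : ‖(t : ℂ)‖ ^ 2 = nz t := by
  rw [← Complex.normSq_eq_norm_sq]
  unfold nz
  rw [GaussianInt.intCast_real_norm]

theorem ph_eq (k : ℤ) (τ : ℝ) (q : ℕ) (hq : 1 ≤ q) (t : ZI) (ht : t ≠ 0) :
    ph k τ t = Complex.exp (((-2 * τ * Real.log q : ℝ) : ℂ) * Complex.I) * Psi k τ ((t : ℂ) / (q : ℂ)) := by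
  have hq0 : (0 : ℝ) < (q : ℝ) := by exact_mod_cast hq
  have ht0 : (t : ℂ) ≠ 0 := by
    intro h
    exact ht (GaussianInt.toComplex_eq_zero.1 h)
  have hn : 0 < ‖(t : ℂ)‖ := norm_pos_iff.2 ht0
  have e1 : (t : ℂ) / (q : ℂ) = (((q : ℝ)⁻¹ : ℝ) : ℂ) * (t : ℂ) := by
    push_cast
    rw [div_eq_mul_inv, mul_comm]
  have e2 : Complex.arg ((t : ℂ) / (q : ℂ)) = Complex.arg (t : ℂ) := by
    rw [e1]
    exact Complex.arg_real_mul _ (inv_pos.2 hq0)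
  have e3 : Real.log ‖(t : ℂ) / (q : ℂ)‖ = Real.log ‖(t : ℂ)‖ - Real.log q := by
    rw [norm_div, Complex.norm_natCast, Real.log_div hn.ne' hq0.ne']
  have e4 : Real.log (nz t) = 2 * Real.log ‖(t : ℂ)‖ := by
    rw [← norm_coe, Real.log_pow]
    norm_num
  unfold ph Psi
  rw [e2, e3, e4, ← Complex.exp_add]
  congr 1
  push_cast
  ring

theorem sh_div (q : ℕ) (hq : 1 ≤ q) (s : ZI) (d : ℕ × ℕ) :
    (((s + sh q d : ZI) : ℂ)) / (q : ℂ) = (s : ℂ) / (q : ℂ) + (d.1 : ℂ) + (d.2 : ℂ) * Complex.I := by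
  have hq0 : (q : ℂ) ≠ 0 := by
    have : q ≠ 0 := by omega
    exact_mod_cast this
  have e : ((sh q d : ZI) : ℂ) = (q : ℂ) * ((d.1 : ℂ) + (d.2 : ℂ) * Complex.I) := by
    unfold sh
    rw [GaussianInt.toComplex_def]
    push_cast
    ring
  rw [map_add, e]
  field_simp
  ring

theorem norm_sh (q : ℕ) (H : ℕ) (d : ℕ × ℕ) (hd : d ∈ range H ×ˢ range H) :
    ‖((sh q d : ZI) : ℂ)‖ ≤ 2 * q * H := by
  rw [mem_product, mem_range, mem_range] at hd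
  have e : ((sh q d : ZI) : ℂ) = (q : ℂ) * (d.1 : ℂ) + ((q : ℂ) * (d.2 : ℂ)) * Complex.I := by
    unfold sh
    rw [GaussianInt.toComplex_def]
    push_cast
    ring
  rw [e]
  refine (norm_add_le _ _).trans ?_
  rw [norm_mul, norm_mul, norm_mul, Complex.norm_I, Complex.norm_natCast, Complex.norm_natCast, Complex.norm_natCast]
  have h1 : (d.1 : ℝ) ≤ H := by exact_mod_cast hd.1.le
  have h2 : (d.2 : ℝ) ≤ H := by exact_mod_cast hd.2.le
  have h3 : (0 : ℝ) ≤ q := by positivity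
  nlinarith [mul_le_mul_of_nonneg_left h1 h3, mul_le_mul_of_nonneg_left h2 h3]

theorem norm_sum_ph (k : ℤ) (τ : ℝ) (q : ℕ) (hq : 1 ≤ q) (H : ℕ) (s : ZI)
    (h0 : ∀ d ∈ range H ×ˢ range H, s + sh q d ≠ 0) :
    ‖∑ d ∈ range H ×ˢ range H, ph k τ (s + sh q d)‖ =
      ‖∑ a ∈ range H, ∑ b ∈ range H, Psi k τ ((s : ℂ) / (q : ℂ) + a + b * Complex.I)‖ := by
  have e : ∑ d ∈ range H ×ˢ range H, ph k τ (s + sh q d) =
      Complex.exp (((-2 * τ * Real.log q : ℝ) : ℂ) * Complex.I) *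
        ∑ a ∈ range H, ∑ b ∈ range H, Psi k τ ((s : ℂ) / (q : ℂ) + a + b * Complex.I) := by
    rw [← sum_product', mul_sum]
    refine sum_congr rfl fun d hd => ?_
    rw [ph_eq k τ q hq _ (h0 d hd), sh_div q hq]
  rw [e, norm_mul, Complex.norm_exp_ofReal_mul_I, one_mul]

/-- the bound (BX) with uniform parameters -/
theorem sq (C : ℕ) (hBX : ∀ (N : ℕ) (κ : ℝ) (k : ℤ) (τ : ℝ) (z₀ : ℂ) (H : ℕ), 2 ≤ N → 1 / 2 ≤ κ →
    ‖cc k τ‖ = (N : ℝ) ^ κ → 29 / 20 * (N : ℝ) ≤ ‖z₀‖ → ‖z₀‖ ≤ 39 / 20 * (N : ℝ) →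
    (H : ℝ) ≤ N / (2000 * (κ + 1)) →
    ‖∑ a ∈ range H, ∑ b ∈ range H, Psi k τ (z₀ + a + b * Complex.I)‖ ≤
      Real.exp (C * (1 + κ) ^ C) * (N : ℝ) ^ (2 - 1 / 10 ^ 12 / (1 + κ) ^ 2 : ℝ))
    (k : ℤ) (τ : ℝ) (z₀ : ℂ) (H : ℕ) (K X : ℝ) (h16 : 16 ≤ ‖z₀‖) (hc : ‖z₀‖ ≤ ‖cc k τ‖ ^ 2)
    (hK : Real.log ‖cc k τ‖ ≤ K * Real.log (‖z₀‖ / 2)) (hH : (H : ℝ) ≤ ‖z₀‖ / (4000 * (K + 1)))
    (hK0 : 0 ≤ K) (hX : ‖z₀‖ ≤ X) :
    ‖∑ a ∈ range H, ∑ b ∈ range H, Psi k τ (z₀ + a + b * Complex.I)‖ ≤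
      Real.exp (C * (1 + K) ^ C) * X ^ (2 - 1 / 10 ^ 12 / (1 + K) ^ 2 : ℝ) := by
  set R := ‖z₀‖ with hR
  set c := ‖cc k τ‖ with hcdef
  set N := ⌊R / (17 / 10)⌋₊ with hN
  have hN1 : (N : ℝ) ≤ R / (17 / 10) := Nat.floor_le (by positivity)
  have hN2 : R / (17 / 10) < (N : ℝ) + 1 := Nat.lt_floor_add_one _
  have hN3 : R / 2 ≤ (N : ℝ) := by
    have : R / (17 / 10) - 1 < (N : ℝ) := by linarith
    have h5 : R / (17 / 10) = R * (10 / 17) := by ring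
    rw [h5] at this
    nlinarith
  have hN8 : (8 : ℝ) ≤ (N : ℝ) := by linarith
  have hNR : (N : ℝ) ≤ R := by
    refine hN1.trans ?_
    rw [div_le_iff₀ (by norm_num)]
    nlinarith
  have hN2' : 2 ≤ N := by
    have : (2 : ℝ) ≤ (N : ℝ) := by linarith
    exact_mod_cast this
  have hNpos : (0 : ℝ) < N := by linarith
  have hlogN : 0 < Real.log N := Real.log_pos (by linarith)
  have hc0 : 0 < c := by
    by_contra h
    have h0 : c = 0 := le_antisymm (not_lt.1 h) (norm_nonneg _)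
    rw [h0] at hc
    norm_num at hc
    linarith
  have hκ1 : c = (N : ℝ) ^ (Real.log c / Real.log N) := by
    rw [Real.rpow_def_of_pos hNpos, mul_div_cancel₀ _ hlogN.ne', Real.exp_log hc0]
  have hκ2 : 1 / 2 ≤ Real.log c / Real.log N := by
    rw [le_div_iff₀ hlogN]
    have : Real.log N ≤ Real.log (c ^ 2) := Real.log_le_log hNpos (hNR.trans hc)
    rw [Real.log_pow] at this
    push_cast at this
    linarith
  have hκ3 : Real.log c / Real.log N ≤ K := by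
    rw [div_le_iff₀ hlogN]
    refine hK.trans (mul_le_mul_of_nonneg_left ?_ hK0)
    exact Real.log_le_log (by linarith) hN3
  set κ := Real.log c / Real.log N with hκ
  have h29 : 29 / 20 * (N : ℝ) ≤ R := by
    rw [le_div_iff₀ (by norm_num)] at hN1
    nlinarith
  have h39 : R ≤ 39 / 20 * (N : ℝ) := by
    rw [div_lt_iff₀ (by norm_num)] at hN2
    nlinarith
  have hHN : (H : ℝ) ≤ N / (2000 * (κ + 1)) := by
    refine hH.trans ?_
    rw [div_le_div_iff₀ (by positivity) (by nlinarith)]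
    have : R ≤ 2 * N := by linarith
    have hk : κ + 1 ≤ K + 1 := by linarith
    calc R * (2000 * (κ + 1)) ≤ (2 * N) * (2000 * (K + 1)) := by
          apply mul_le_mul this (by nlinarith) (by nlinarith) (by positivity)
      _ = N * (4000 * (K + 1)) := by ring
  refine (hBX N κ k τ z₀ H hN2' hκ2 hκ1 h29 h39 hHN).trans ?_
  apply mul_le_mul
  · apply Real.exp_le_exp.2
    apply mul_le_mul_of_nonneg_left _ (by positivity)
    exact pow_le_pow_left₀ (by linarith) (by linarith) _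
  · have hexp : (2 - 1 / 10 ^ 12 / (1 + κ) ^ 2 : ℝ) ≤ 2 - 1 / 10 ^ 12 / (1 + K) ^ 2 := by
      apply sub_le_sub_left
      apply div_le_div_of_nonneg_left (by positivity) (by positivity)
      exact pow_le_pow_left₀ (by linarith) (by linarith) _
    have hnn : (0 : ℝ) ≤ 2 - 1 / 10 ^ 12 / (1 + K) ^ 2 := by
      have h1 : (1 : ℝ) ≤ (1 + K) ^ 2 := by nlinarith
      have h2 : (1 / 10 ^ 12 / (1 + K) ^ 2 : ℝ) ≤ 1 / 10 ^ 12 := div_le_self (by norm_num) h1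
      have h3 : (1 / 10 ^ 12 : ℝ) ≤ 1 := by norm_num
      linarith
    calc (N : ℝ) ^ (2 - 1 / 10 ^ 12 / (1 + κ) ^ 2 : ℝ) ≤ (N : ℝ) ^ (2 - 1 / 10 ^ 12 / (1 + K) ^ 2 : ℝ) :=
          Real.rpow_le_rpow_of_exponent_le (by linarith) hexp
      _ ≤ X ^ (2 - 1 / 10 ^ 12 / (1 + K) ^ 2 : ℝ) := Real.rpow_le_rpow hNpos.le (hNR.trans hX) hnn
  · positivity
  · positivity

end Pool.Agent.N106.GN
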