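import Pool.Agent.N106.GN.E1

/-!
# Project GN (helper782), part E: the bound in terms of the parameters
-/

set_option autoImplicit false

namespace Pool.Agent.N106.GN

open Finset
open Pool.Agent.N782.GN

theorem mem_cls (q : ℕ) (r : ZI) (X : ℝ) (z : ZI) :
    z ∈ cls q r X ↔ z ≠ 0 ∧ nz z ≤ X ∧ ((q : ℕ) : ZI) ∣ z - r := by
  classical
  unfold cls
  rw [mem_filter, mem_bl, and_assoc]

theorem cls_mono (q : ℕ) (r : ZI) {X Y : ℝ} (h : X ≤ Y) : cls q r X ⊆ cls q r Y := by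
  intro z hz
  rw [mem_cls] at hz ⊢
  exact ⟨hz.1, hz.2.1.trans h, hz.2.2⟩

/-- the number of the elements of a class -/
theorem card_cls (C : ℝ) (hEL : ∀ (k : ℤ) (τ : ℝ) (q : ℕ) (r : ZI) (Y : ℝ), 1 ≤ q → 1 ≤ Y →
    ‖∑ t ∈ cls q r Y, ph k τ t - (if k = 0 then ((Real.pi / (q : ℝ) ^ 2 : ℝ) : ℂ) *
      ((Y : ℂ) ^ (1 - (τ : ℂ) * Complex.I) / (1 - (τ : ℂ) * Complex.I)) else 0)‖ ≤
      C * (1 + |(k : ℝ)| + |τ|) * Real.sqrt Y)
    (q : ℕ) (r : ZI) (Y : ℝ) (hq : 1 ≤ q) (hY : 1 ≤ Y) :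
    |((cls q r Y).card : ℝ) - Real.pi / (q : ℝ) ^ 2 * Y| ≤ C * Real.sqrt Y := by
  have h := hEL 0 0 q r Y hq hY
  rw [if_pos rfl] at h
  have e1 : ∑ t ∈ cls q r Y, ph 0 0 t = ((cls q r Y).card : ℂ) := by
    rw [sum_congr rfl (g := fun _ => (1 : ℂ)), sum_const, nsmul_eq_mul, mul_one]
    intro t _
    unfold ph
    simp
  have e2 : ((Y : ℂ) ^ (1 - ((0 : ℝ) : ℂ) * Complex.I) / (1 - ((0 : ℝ) : ℂ) * Complex.I)) = (Y : ℂ) := by
    simp
  rw [e1, e2] at h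
  have e3 : ((cls q r Y).card : ℂ) - ((Real.pi / (q : ℝ) ^ 2 : ℝ) : ℂ) * (Y : ℂ) =
      ((((cls q r Y).card : ℝ) - Real.pi / (q : ℝ) ^ 2 * Y : ℝ) : ℂ) := by
    push_cast
    ring
  rw [e3, Complex.norm_real, Real.norm_eq_abs] at h
  simpa using h

/-- the main estimate, `Q = Y^η` -/
theorem main_bound (C₁ : ℝ) (hC₁ : 0 < C₁)
    (hEL : ∀ (k : ℤ) (τ : ℝ) (q : ℕ) (r : ZI) (Y : ℝ), 1 ≤ q → 1 ≤ Y →
    ‖∑ t ∈ cls q r Y, ph k τ t - (if k = 0 then ((Real.pi / (q : ℝ) ^ 2 : ℝ) : ℂ) *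
      ((Y : ℂ) ^ (1 - (τ : ℂ) * Complex.I) / (1 - (τ : ℂ) * Complex.I)) else 0)‖ ≤
      C₁ * (1 + |(k : ℝ)| + |τ|) * Real.sqrt Y)
    (C : ℕ) (hBX : ∀ (N : ℕ) (κ : ℝ) (k : ℤ) (τ : ℝ) (z₀ : ℂ) (H : ℕ), 2 ≤ N → 1 / 2 ≤ κ →
    ‖cc k τ‖ = (N : ℝ) ^ κ → 29 / 20 * (N : ℝ) ≤ ‖z₀‖ → ‖z₀‖ ≤ 39 / 20 * (N : ℝ) →
    (H : ℝ) ≤ N / (2000 * (κ + 1)) →
    ‖∑ a ∈ range H, ∑ b ∈ range H, Psi k τ (z₀ + a + b * Complex.I)‖ ≤
      Real.exp (C * (1 + κ) ^ C) * (N : ℝ) ^ (2 - 1 / 10 ^ 12 / (1 + κ) ^ 2 : ℝ))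
    (k : ℤ) (τ : ℝ) (q : ℕ) (r : ZI) (Y K η : ℝ) (hq : 1 ≤ q) (hY : 1 < Y) (hK0 : 0 ≤ K)
    (hη : η = 1 / 10 ^ 12 / (1 + K) ^ 2 / 16)
    (hQ : 4000 * q * (K + 1) ≤ Y ^ η) (hc : Real.sqrt Y ≤ ‖cc k τ‖ ^ 2)
    (hK : Real.log ‖cc k τ‖ ≤ K * (Real.log Y / 4)) :
    ‖∑ t ∈ cls q r Y, ph k τ t‖ ≤ (32 + 7 * C₁) * Real.exp (C * (1 + K) ^ C) * Y ^ (1 - 2 * η) := by
  classical
  have hY0 : 0 < Y := by linarith
  have hq1 : (1 : ℝ) ≤ q := by exact_mod_cast hq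
  have hη0 : 0 < η := by rw [hη]; positivity
  have hη1 : η ≤ 1 / 16 := by
    rw [hη]
    have h1 : (1 : ℝ) ≤ (1 + K) ^ 2 := by nlinarith
    have h2 : (1 / 10 ^ 12 / (1 + K) ^ 2 : ℝ) ≤ 1 / 10 ^ 12 := div_le_self (by norm_num) h1
    have h3 : (1 / 10 ^ 12 : ℝ) ≤ 1 := by norm_num
    linarith
  set Q := Y ^ η with hQdef
  have hQ0 : 0 < Q := Real.rpow_pos_of_pos hY0 _
  have hQq : 4000 * (q : ℝ) ≤ Q := by clear * - hQ hK0 hq1; nlinarith
  have hQ1 : 4000 ≤ Q := by clear * - hQq hq1; nlinarith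
  have hsq : Real.sqrt Y = Y ^ (1 / 2 : ℝ) := Real.sqrt_eq_rpow Y
  -- the powers of `Y`
  set P := Y ^ (1 / 2 - 2 * η : ℝ) with hP
  have hP0 : 0 < P := Real.rpow_pos_of_pos hY0 _
  have hPQ : Q ≤ P := by
    rw [hQdef, hP]
    exact Real.rpow_le_rpow_of_exponent_le hY.le (by linarith)
  have hP1 : 4000 ≤ P := hQ1.trans hPQ
  have hPY : P * (Q * Q) = Real.sqrt Y := by
    rw [hsq, hP, hQdef, ← Real.rpow_add hY0, ← Real.rpow_add hY0]
    congr 1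
    ring
  set H := ⌊P⌋₊ with hH
  have hH1 : (H : ℝ) ≤ P := Nat.floor_le hP0.le
  have hH2 : P < (H : ℝ) + 1 := Nat.lt_floor_add_one _
  have hH3 : P / 2 ≤ (H : ℝ) := by linarith
  have hHpos : (0 : ℝ) < H := by linarith
  have hH4 : 1 ≤ H := by exact_mod_cast (Nat.cast_pos.1 hHpos)
  -- `2 q H ≤ P Q = Y^(1/2 - η) ≤ sqrt Y / 2`
  have h2qH : 2 * q * (H : ℝ) ≤ P * Q := by
    calc 2 * q * (H : ℝ) ≤ 2 * q * P := by
          apply mul_le_mul_of_nonneg_left hH1 (by positivity)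
      _ ≤ Q * P := by
          apply mul_le_mul_of_nonneg_right _ hP0.le
          linarith
      _ = P * Q := by ring
  have hPQY : 2 * (P * Q) ≤ Real.sqrt Y := by
    rw [← hPY]
    clear * - hQ1 hP0; nlinarith [mul_pos hP0 (lt_of_lt_of_le (by norm_num) hQ1 : (0:ℝ) < Q)]
  set Y2 := (Real.sqrt Y - 2 * q * H) ^ 2 with hY2
  set Z := (P * Q) ^ 2 with hZ
  have hsY : 1 ≤ Real.sqrt Y - 2 * q * H := by
    have : 4000 ≤ P * Q := by clear * - hP1 hQ1; nlinarith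
    linarith
  have hY21 : 1 ≤ Y2 := by rw [hY2]; clear * - hsY; nlinarith
  have hsqY : Real.sqrt Y ^ 2 = Y := Real.sq_sqrt hY0.le
  have hY2Y : Y2 ≤ Y := by
    rw [hY2]
    have : 0 ≤ 2 * q * (H : ℝ) := by positivity
    clear * - this hsqY hsY; nlinarith [Real.sqrt_nonneg Y]
  have hZ1 : 1 ≤ Z := by
    rw [hZ]
    have : 4000 ≤ P * Q := by clear * - hP1 hQ1; nlinarith
    clear * - this; nlinarith
  set S := cls q r Y with hS
  set G := cls q r Y2 \ cls q r Z with hG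
  -- the good points
  have hGm : ∀ s ∈ G, ((q : ℕ) : ZI) ∣ s - r ∧ P * Q < ‖(s : ℂ)‖ ∧ ‖(s : ℂ)‖ ≤ Real.sqrt Y - 2 * q * H := by
    intro s hs
    rw [hG, mem_sdiff, mem_cls, mem_cls] at hs
    obtain ⟨⟨h0, h1, h2⟩, h3⟩ := hs
    refine ⟨h2, ?_, ?_⟩
    · by_contra hcon
      apply h3
      refine ⟨h0, ?_, h2⟩
      rw [← norm_coe, hZ]
      exact pow_le_pow_left₀ (norm_nonneg _) (not_lt.1 hcon) 2
    · rw [← norm_coe, hY2] at h1
      exact (sq_le_sq₀ (norm_nonneg _) (by linarith)).1 h1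
  have hne : ∀ s ∈ G, ∀ d ∈ range H ×ˢ range H, s + sh q d ≠ 0 := by
    intro s hs d hd h0
    obtain ⟨-, h1, -⟩ := hGm s hs
    have h2 := norm_sh q H d hd
    have h3 : (s : ℂ) = -((sh q d : ZI) : ℂ) := by
      rw [← map_neg]
      congr 1
      exact eq_neg_of_add_eq_zero_left h0
    rw [h3, norm_neg] at h1
    linarith
  have hGS : ∀ s ∈ G, ∀ d ∈ range H ×ˢ range H, s + sh q d ∈ S := by
    intro s hs d hd
    rw [hS, mem_cls]
    obtain ⟨h0, h1, h1'⟩ := hGm s hs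
    have h2 := norm_sh q H d hd
    refine ⟨hne s hs d hd, ?_, ?_⟩
    · rw [← norm_coe, map_add, ← hsqY]
      apply pow_le_pow_left₀ (norm_nonneg _)
      refine (norm_add_le _ _).trans ?_
      linarith
    · have e : s + sh q d - r = (s - r) + ((q : ℕ) : ZI) * ⟨(d.1 : ℤ), (d.2 : ℤ)⟩ := by
        unfold sh
        ext <;> simp <;> ring
      rw [e]
      exact dvd_add h0 (dvd_mul_right _ _)
  have havg := avg S G H q (ph k τ) (fun z => (norm_ph k τ z).le) hGS hH4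
  -- counts
  have hcS := card_cls C₁ hEL q r Y hq hY.le
  have hcY2 := card_cls C₁ hEL q r Y2 hq hY21
  have hcZ := card_cls C₁ hEL q r Z hq hZ1
  rw [abs_le] at hcS hcY2 hcZ
  have hcardG : ((cls q r Y2).card : ℝ) - (cls q r Z).card ≤ G.card := by
    have h1 : (cls q r Y2).card ≤ G.card + (cls q r Z).card := by
      rw [hG]
      exact card_le_card_sdiff_add_card
    have h2 : ((cls q r Y2).card : ℝ) ≤ G.card + (cls q r Z).card := by exact_mod_cast h1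
    linarith
  have hcardG2 : (G.card : ℝ) ≤ (4 + C₁) * Y := by
    have h1 : G.card ≤ S.card := card_le_card ((sdiff_subset).trans (cls_mono q r hY2Y))
    have h2 : (G.card : ℝ) ≤ S.card := by exact_mod_cast h1
    have h3 : Real.pi / (q : ℝ) ^ 2 * Y ≤ 4 * Y := by
      apply mul_le_mul_of_nonneg_right _ hY0.le
      rw [div_le_iff₀ (by positivity)]
      clear * - hq1; nlinarith [Real.pi_le_four]
    have h4 : Real.sqrt Y ≤ Y := by
      rw [Real.sqrt_le_left hY0.le]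
      clear * - hY; nlinarith
    clear * - h2 h3 h4 hcS hC₁; nlinarith [hcS.2]
  -- the squares
  set E := Real.exp (C * (1 + K) ^ C) with hE
  have hE1 : 1 ≤ E := Real.one_le_exp (by positivity)
  have hδ : (1 / 10 ^ 12 / (1 + K) ^ 2 : ℝ) = 16 * η := by rw [hη]; ring
  have hsquare : ∀ s ∈ G, ‖∑ d ∈ range H ×ˢ range H, ph k τ (s + sh q d)‖ ≤ E * Y ^ (1 - 8 * η : ℝ) := by
    intro s hs
    rw [norm_sum_ph k τ q hq H s (hne s hs)]
    obtain ⟨-, h1, h2⟩ := hGm s hs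
    have hnz : ‖(s : ℂ) / (q : ℂ)‖ = ‖(s : ℂ)‖ / q := by rw [norm_div, Complex.norm_natCast]
    have hlow : 4000 * P * (K + 1) ≤ ‖(s : ℂ) / (q : ℂ)‖ := by
      rw [hnz, le_div_iff₀ (by positivity)]
      refine le_trans ?_ h1.le
      calc 4000 * P * (K + 1) * q = P * (4000 * q * (K + 1)) := by ring
        _ ≤ P * Q := mul_le_mul_of_nonneg_left hQ hP0.le
    have hlow2 : 4000 * P ≤ ‖(s : ℂ) / (q : ℂ)‖ := by
      refine le_trans ?_ hlow
      clear * - hP0 hK0; nlinarith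
    have hup : ‖(s : ℂ) / (q : ℂ)‖ ≤ Real.sqrt Y := by
      rw [hnz]
      refine (div_le_self (norm_nonneg _) hq1).trans (h2.trans ?_)
      have : 0 ≤ 2 * q * (H : ℝ) := by positivity
      linarith
    have hfin := sq C hBX k τ ((s : ℂ) / (q : ℂ)) H K (Real.sqrt Y) (by linarith) (hup.trans hc) ?_ ?_ hK0 hup
    · refine hfin.trans (le_of_eq ?_)
      rw [hδ, hsq, ← Real.rpow_mul hY0.le]
      congr 2
      ring
    · refine hK.trans (mul_le_mul_of_nonneg_left ?_ hK0)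
      have h4 : Y ^ (1 / 4 : ℝ) ≤ ‖(s : ℂ) / (q : ℂ)‖ / 2 := by
        have : Y ^ (1 / 4 : ℝ) ≤ P := by
          rw [hP]
          exact Real.rpow_le_rpow_of_exponent_le hY.le (by linarith)
        linarith
      have h5 := Real.log_le_log (Real.rpow_pos_of_pos hY0 _) h4
      rw [Real.log_rpow hY0] at h5
      linarith
    · rw [le_div_iff₀ (by positivity)]
      refine le_trans ?_ hlow
      calc (H : ℝ) * (4000 * (K + 1)) ≤ P * (4000 * (K + 1)) := mul_le_mul_of_nonneg_right hH1 (by positivity)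
        _ = 4000 * P * (K + 1) := by ring
  -- assembly
  set W := Y ^ (1 - 2 * η : ℝ) with hW
  have hW0 : 0 < W := Real.rpow_pos_of_pos hY0 _
  have hPsY : P * Real.sqrt Y = W := by
    rw [hsq, hP, hW, ← Real.rpow_add hY0]
    congr 1
    ring
  have hZW : Z = W := by
    rw [hZ, hP, hQdef, hW, ← Real.rpow_add hY0, ← Real.rpow_natCast, ← Real.rpow_mul hY0.le]
    congr 1
    push_cast
    ring
  have hsYW : Real.sqrt Y ≤ W := by
    rw [hsq, hW]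
    exact Real.rpow_le_rpow_of_exponent_le hY.le (by linarith)
  have hYP : Y = P ^ 2 * Y ^ (4 * η : ℝ) := by
    rw [hP, ← Real.rpow_natCast, ← Real.rpow_mul hY0.le, ← Real.rpow_add hY0]
    conv_lhs => rw [← Real.rpow_one Y]
    congr 1
    push_cast
    ring
  have hfirst : (S.card : ℝ) - G.card ≤ (16 + 3 * C₁) * W := by
    have hq2 : Real.pi / (q : ℝ) ^ 2 ≤ Real.pi := div_le_self Real.pi_pos.le (by clear * - hq1; nlinarith)
    have hpq0 : 0 ≤ Real.pi / (q : ℝ) ^ 2 := by positivity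
    have h1 : Real.pi / (q : ℝ) ^ 2 * (Y - Y2) ≤ 4 * Real.pi * W := by
      have e : Y - Y2 ≤ 4 * q * (P * Real.sqrt Y) := by
        have e1 : Y - Y2 = 4 * q * (H * Real.sqrt Y) - 4 * (q * H) ^ 2 := by
          rw [hY2]
          clear * - hsqY; nlinarith [hsqY]
        have e2 : (H : ℝ) * Real.sqrt Y ≤ P * Real.sqrt Y := mul_le_mul_of_nonneg_right hH1 (Real.sqrt_nonneg _)
        have e3 : 0 ≤ 4 * ((q : ℝ) * H) ^ 2 := by positivity
        have e4 : 4 * (q : ℝ) * (H * Real.sqrt Y) ≤ 4 * q * (P * Real.sqrt Y) :=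
          mul_le_mul_of_nonneg_left e2 (by positivity)
        linarith
      calc Real.pi / (q : ℝ) ^ 2 * (Y - Y2) ≤ Real.pi / (q : ℝ) ^ 2 * (4 * q * (P * Real.sqrt Y)) :=
            mul_le_mul_of_nonneg_left e hpq0
        _ = 4 * Real.pi * W / q := by
            rw [hPsY]
            field_simp
        _ ≤ 4 * Real.pi * W := div_le_self (by positivity) hq1
    have h2 : Real.pi / (q : ℝ) ^ 2 * Z ≤ Real.pi * W := by
      rw [hZW]
      exact mul_le_mul_of_nonneg_right hq2 hW0.le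
    have h3 : Real.sqrt Y2 ≤ W := by
      refine le_trans ?_ hsYW
      exact Real.sqrt_le_sqrt hY2Y
    have h4 : Real.sqrt Z ≤ W := by
      rw [hZW]
      rw [Real.sqrt_le_left hW0.le]
      rw [← hZW]
      clear * - hZ1; nlinarith
    have h5 := Real.pi_lt_d2
    have h6 : C₁ * Real.sqrt Y2 ≤ C₁ * W := mul_le_mul_of_nonneg_left h3 hC₁.le
    have h7 : C₁ * Real.sqrt Z ≤ C₁ * W := mul_le_mul_of_nonneg_left h4 hC₁.le
    have h8 : C₁ * Real.sqrt Y ≤ C₁ * W := mul_le_mul_of_nonneg_left hsYW hC₁.le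
    have h9 : Real.pi * W ≤ 3.15 * W := mul_le_mul_of_nonneg_right h5.le hW0.le
    have h10 : Real.pi / (q : ℝ) ^ 2 * (Y - Y2) = Real.pi / (q : ℝ) ^ 2 * Y - Real.pi / (q : ℝ) ^ 2 * Y2 := by ring
    linarith [hcS.2, hcY2.1, hcZ.2]
  have hsecond : (1 / (H : ℝ) ^ 2) * ∑ s ∈ G, ‖∑ d ∈ range H ×ˢ range H, ph k τ (s + sh q d)‖ ≤
      4 * (4 + C₁) * E * W := by
    have h1 : ∑ s ∈ G, ‖∑ d ∈ range H ×ˢ range H, ph k τ (s + sh q d)‖ ≤ G.card * (E * Y ^ (1 - 8 * η : ℝ)) := by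
      refine (sum_le_sum hsquare).trans ?_
      rw [sum_const, nsmul_eq_mul]
    have hEY : 0 ≤ E * Y ^ (1 - 8 * η : ℝ) := by positivity
    have h2 : ∑ s ∈ G, ‖∑ d ∈ range H ×ˢ range H, ph k τ (s + sh q d)‖ ≤
        (4 + C₁) * Y * (E * Y ^ (1 - 8 * η : ℝ)) :=
      h1.trans (mul_le_mul_of_nonneg_right hcardG2 hEY)
    have h3 : 1 / (H : ℝ) ^ 2 ≤ 4 / P ^ 2 := by
      rw [div_le_div_iff₀ (by positivity) (by positivity)]
      clear * - hH3 hP0 hHpos; nlinarith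
    have h5 : Y / P ^ 2 = Y ^ (4 * η : ℝ) := by
      rw [div_eq_iff (by positivity), mul_comm]
      exact hYP
    calc (1 / (H : ℝ) ^ 2) * ∑ s ∈ G, ‖∑ d ∈ range H ×ˢ range H, ph k τ (s + sh q d)‖
        ≤ (4 / P ^ 2) * ((4 + C₁) * Y * (E * Y ^ (1 - 8 * η : ℝ))) := by
          apply mul_le_mul h3 h2 (by positivity) (by positivity)
      _ = 4 * (4 + C₁) * E * (Y / P ^ 2 * Y ^ (1 - 8 * η : ℝ)) := by ring
      _ = 4 * (4 + C₁) * E * (Y ^ (4 * η : ℝ) * Y ^ (1 - 8 * η : ℝ)) := by rw [h5]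
      _ ≤ 4 * (4 + C₁) * E * W := by
          apply mul_le_mul_of_nonneg_left _ (by positivity)
          rw [← Real.rpow_add hY0, hW]
          exact Real.rpow_le_rpow_of_exponent_le hY.le (by linarith)
  have hlast : (16 + 3 * C₁) * W ≤ (16 + 3 * C₁) * E * W := by
    have : (16 + 3 * C₁) ≤ (16 + 3 * C₁) * E := le_mul_of_one_le_right (by positivity) hE1
    exact mul_le_mul_of_nonneg_right this hW0.le
  calc ‖∑ t ∈ S, ph k τ t‖ ≤ (16 + 3 * C₁) * E * W + 4 * (4 + C₁) * E * W := by linarith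
    _ = (32 + 7 * C₁) * E * W := by ring

end Pool.Agent.N106.GN
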