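import Pool.Agent.N106.GN.E2

/-!
# Project GN (helper782), part E: the choice of the parameters, the theorem
-/

set_option autoImplicit false

namespace Pool.Agent.N106.GN

open Finset
open Pool.Agent.N782.GN

theorem norm_cc_le (k : ℤ) (τ T : ℝ) (hk : |(k : ℝ)| ≤ T) (hτ : |τ| ≤ T) : ‖cc k τ‖ ≤ 3 * T := by
  unfold cc
  refine (norm_sub_le _ _).trans ?_
  rw [norm_neg, norm_mul, norm_mul, Complex.norm_I, Complex.norm_real, Real.norm_eq_abs, Complex.norm_intCast,
    Complex.norm_ofNat]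
  linarith

theorem abs_k_le (k : ℤ) (τ : ℝ) : |(k : ℝ)| ≤ ‖cc k τ‖ := by
  have h := Complex.abs_im_le_norm (cc k τ)
  have e : (cc k τ).im = -(k : ℝ) := by
    unfold cc
    simp
  rwa [e, abs_neg] at h

theorem abs_t_le (k : ℤ) (τ : ℝ) : 2 * |τ| ≤ ‖cc k τ‖ := by
  have h := Complex.abs_re_le_norm (cc k τ)
  have e : (cc k τ).re = -(2 * τ) := by
    unfold cc
    simp
  rwa [e, abs_neg, abs_mul, abs_two] at h

/-- the inequalities between the parameters -/
theorem params (C B : ℕ) (C₂ : ℝ) (hC₂ : 0 < C₂) : ∃ X₀ : ℝ, 2 ≤ X₀ ∧ ∀ x : ℝ, X₀ ≤ x →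
    1 / x ^ 4 ≤ 1 / 10 ^ 12 / (1 + 8 * x) ^ 2 / 16 ∧
    4000 * x ^ (8 * (C + 4) * B) * (8 * x + 1) ≤ Real.exp (x ^ (8 * (C + 4) - 5)) ∧
    C₂ * Real.exp (C * (1 + 8 * x) ^ C) ≤ Real.exp (x ^ (8 * (C + 4) - 5)) := by
  refine ⟨10 ^ 8 + C₂ + C * 9 ^ C + (8 * (C + 4) * B : ℕ) + 2, ?_, ?_⟩
  · have : (0 : ℝ) ≤ C * 9 ^ C := by positivity
    have : (0 : ℝ) ≤ ((8 * (C + 4) * B : ℕ) : ℝ) := by positivity
    linarith
  intro x hx
  have h1 : (0 : ℝ) ≤ C * 9 ^ C := by positivity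
  have h2 : (0 : ℝ) ≤ ((8 * (C + 4) * B : ℕ) : ℝ) := by positivity
  have hx8 : (10 : ℝ) ^ 8 ≤ x := by linarith
  have hx1 : (1 : ℝ) ≤ x := by linarith
  have hx0 : (0 : ℝ) < x := by linarith
  refine ⟨?_, ?_, ?_⟩
  · have h3 : (1 + 8 * x) ^ 2 ≤ 81 * x ^ 2 := by nlinarith
    have h4 : (10 : ℝ) ^ 16 ≤ x ^ 2 := by
      calc (10 : ℝ) ^ 16 = (10 ^ 8) ^ 2 := by norm_num
        _ ≤ x ^ 2 := pow_le_pow_left₀ (by norm_num) hx8 2
    have e : (1 / 10 ^ 12 / (1 + 8 * x) ^ 2 / 16 : ℝ) = 1 / (16 * 10 ^ 12 * (1 + 8 * x) ^ 2) := by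
      field_simp
    rw [e]
    apply one_div_le_one_div_of_le (by positivity)
    calc 16 * 10 ^ 12 * (1 + 8 * x) ^ 2 ≤ 16 * 10 ^ 12 * (81 * x ^ 2) :=
          mul_le_mul_of_nonneg_left h3 (by norm_num)
      _ = 1296 * 10 ^ 12 * x ^ 2 := by ring
      _ ≤ x ^ 2 * x ^ 2 := by
          apply mul_le_mul_of_nonneg_right _ (by positivity)
          exact le_trans (by norm_num) h4
      _ = x ^ 4 := by ring
  · have h3 : 4000 * (8 * x + 1) ≤ x * x := by nlinarith
    calc 4000 * x ^ (8 * (C + 4) * B) * (8 * x + 1) = x ^ (8 * (C + 4) * B) * (4000 * (8 * x + 1)) := by ring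
      _ ≤ x ^ (8 * (C + 4) * B) * (x * x) := mul_le_mul_of_nonneg_left h3 (by positivity)
      _ = x ^ (8 * (C + 4) * B + 2) := by ring
      _ ≤ (Real.exp x) ^ (8 * (C + 4) * B + 2) := by
          apply pow_le_pow_left₀ hx0.le
          linarith [Real.add_one_le_exp x]
      _ = Real.exp (((8 * (C + 4) * B + 2 : ℕ) : ℝ) * x) := by rw [Real.exp_nat_mul]
      _ ≤ Real.exp (x ^ (8 * (C + 4) - 5)) := by
          apply Real.exp_le_exp.2
          calc ((8 * (C + 4) * B + 2 : ℕ) : ℝ) * x ≤ x * x := by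
                apply mul_le_mul_of_nonneg_right _ hx0.le
                push_cast at h2 hx ⊢
                linarith
            _ = x ^ 2 := by ring
            _ ≤ x ^ (8 * (C + 4) - 5) := pow_le_pow_right₀ hx1 (by omega)
  · calc C₂ * Real.exp (C * (1 + 8 * x) ^ C) ≤ Real.exp C₂ * Real.exp (C * (1 + 8 * x) ^ C) := by
          apply mul_le_mul_of_nonneg_right _ (Real.exp_pos _).le
          linarith [Real.add_one_le_exp C₂]
      _ = Real.exp (C₂ + C * (1 + 8 * x) ^ C) := by rw [Real.exp_add]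
      _ ≤ Real.exp (x ^ (8 * (C + 4) - 5)) := by
          apply Real.exp_le_exp.2
          have h3 : (1 + 8 * x) ^ C ≤ 9 ^ C * x ^ C := by
            rw [← mul_pow]
            exact pow_le_pow_left₀ (by positivity) (by linarith) _
          have h4 : (1 : ℝ) ≤ x ^ C := one_le_pow₀ hx1
          calc C₂ + C * (1 + 8 * x) ^ C ≤ C₂ * x ^ C + C * (9 ^ C * x ^ C) := by
                apply add_le_add
                · exact le_mul_of_one_le_right hC₂.le h4
                · exact mul_le_mul_of_nonneg_left h3 (by positivity)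
            _ = (C₂ + C * 9 ^ C) * x ^ C := by ring
            _ ≤ x * x ^ C := by
                apply mul_le_mul_of_nonneg_right _ (by positivity)
                linarith
            _ = x ^ (C + 1) := by ring
            _ ≤ x ^ (8 * (C + 4) - 5) := pow_le_pow_right₀ hx1 (by omega)

theorem ee_bound (h1 : S_EL) (h2 : S_BX) : S_E := by
  intro B
  obtain ⟨C₁, hC₁, hEL⟩ := h1
  obtain ⟨C, hBX⟩ := h2
  obtain ⟨X₀, hX₀, hpar⟩ := params C B (32 + 7 * C₁) (by positivity)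
  set m : ℕ := 8 * (C + 4) with hm
  have hm32 : 32 ≤ m := by omega
  have hm0 : m ≠ 0 := by omega
  have hmR : (32 : ℝ) ≤ (m : ℝ) := by exact_mod_cast hm32
  have hmpos : (0 : ℝ) < (m : ℝ) := by linarith
  refine ⟨4 / m, 1 - 1 / m, Real.exp (X₀ ^ m), by positivity, ?_, ?_, ?_, ?_⟩
  · have : 5 / (m : ℝ) < 1 := by
      rw [div_lt_one hmpos]
      linarith
    have e : (5 : ℝ) / m = 4 / m + 1 / m := by ring
    linarith
  · have : 0 < 1 / (m : ℝ) := by positivity
    linarith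
  · have h3 : (2 : ℝ) ≤ X₀ ^ m := by
      calc (2 : ℝ) ≤ X₀ := hX₀
        _ = X₀ ^ 1 := (pow_one _).symm
        _ ≤ X₀ ^ m := pow_le_pow_right₀ (by linarith) (by omega)
    linarith [Real.add_one_le_exp (X₀ ^ m)]
  intro T Y k τ q r hT hY hk hkT hτT hq hqT
  have hX0m : 0 < X₀ ^ m := by positivity
  have hTpos : 0 < T := lt_of_lt_of_le (Real.exp_pos _) hT
  have hL : X₀ ^ m ≤ Real.log T := by
    rw [Real.le_log_iff_exp_le hTpos]
    exact hT
  set L := Real.log T with hLdef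
  have hL0 : 0 < L := lt_of_lt_of_le hX0m hL
  have hT3 : 3 ≤ T := by
    have h3 : (2 : ℝ) ≤ X₀ ^ m := by
      calc (2 : ℝ) ≤ X₀ := hX₀
        _ = X₀ ^ 1 := (pow_one _).symm
        _ ≤ X₀ ^ m := pow_le_pow_right₀ (by linarith) (by omega)
    linarith [Real.add_one_le_exp (X₀ ^ m)]
  set x := L ^ ((m : ℝ)⁻¹) with hx
  have hxm : x ^ m = L := Real.rpow_inv_natCast_pow hL0.le hm0
  have hx0 : 0 < x := Real.rpow_pos_of_pos hL0 _
  have hxX : X₀ ≤ x := by
    rw [← hxm] at hL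
    exact (pow_le_pow_iff_left₀ (by linarith) hx0.le hm0).1 hL
  have hx1 : 1 ≤ x := by linarith
  have hLb : L ^ (1 - 1 / (m : ℝ)) = x ^ (m - 1) := by
    rw [← hxm, ← Real.rpow_natCast, ← Real.rpow_mul hx0.le, ← Real.rpow_natCast]
    congr 1
    rw [Nat.cast_sub (by omega)]
    push_cast
    field_simp
  have hLa : L ^ (-(4 / (m : ℝ))) = 1 / x ^ 4 := by
    rw [← hxm, ← Real.rpow_natCast, ← Real.rpow_mul hx0.le]
    have e : (m : ℝ) * -(4 / (m : ℝ)) = -(4 : ℕ) := by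
      push_cast
      field_simp
    rw [e, Real.rpow_neg hx0.le, Real.rpow_natCast, one_div]
  rw [hLa]
  rw [hLb] at hY
  obtain ⟨hp1, hp2, hp3⟩ := hpar x hxX
  set K := 8 * x with hK
  have hK0 : 0 ≤ K := by positivity
  set η := (1 / 10 ^ 12 / (1 + K) ^ 2 / 16 : ℝ) with hη
  have hη0 : 0 < η := by positivity
  have hη1 : η ≤ 1 / 16 := by
    rw [hη]
    have h1 : (1 : ℝ) ≤ (1 + K) ^ 2 := by nlinarith
    have h2 : (1 / 10 ^ 12 / (1 + K) ^ 2 : ℝ) ≤ 1 / 10 ^ 12 := div_le_self (by norm_num) h1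
    have h3 : (1 / 10 ^ 12 : ℝ) ≤ 1 := by norm_num
    linarith
  have hY1 : 1 < Y := by
    refine lt_of_lt_of_le ?_ hY
    exact Real.one_lt_exp_iff.2 (by positivity)
  have hY0 : 0 < Y := by linarith
  have hlogY : x ^ (m - 1) ≤ Real.log Y := by
    rw [Real.le_log_iff_exp_le hY0]
    exact hY
  have hYη : Real.exp (x ^ (m - 5)) ≤ Y ^ η := by
    rw [Real.rpow_def_of_pos hY0]
    apply Real.exp_le_exp.2
    calc x ^ (m - 5) = x ^ (m - 1) * (1 / x ^ 4) := by
          rw [mul_one_div, eq_div_iff (by positivity), ← pow_add]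
          congr 1
      _ ≤ Real.log Y * η := by
          apply mul_le_mul hlogY hp1 (by positivity)
          exact (le_trans (by positivity) hlogY)
  have hlast : Y ^ (1 - η) ≤ Y ^ (1 - 1 / x ^ 4 : ℝ) := by
    apply Real.rpow_le_rpow_of_exponent_le hY1.le
    linarith
  have hc1 : 1 ≤ ‖cc k τ‖ := by
    refine le_trans ?_ (abs_k_le k τ)
    have : 1 ≤ |k| := Int.one_le_abs hk
    exact_mod_cast this
  by_cases hcase : Real.sqrt Y ≤ ‖cc k τ‖ ^ 2
  · have hmain := main_bound C₁ hC₁ hEL C hBX k τ q r Y K η hq hY1 hK0 hη ?_ hcase ?_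
    · refine hmain.trans ((?_ : _ ≤ Y ^ (1 - η)).trans hlast)
      calc (32 + 7 * C₁) * Real.exp (C * (1 + K) ^ C) * Y ^ (1 - 2 * η)
          ≤ Y ^ η * Y ^ (1 - 2 * η) := by
            apply mul_le_mul_of_nonneg_right (hp3.trans hYη) (by positivity)
        _ = Y ^ (1 - η) := by
            rw [← Real.rpow_add hY0]
            congr 1
            ring
    · refine le_trans ?_ (hp2.trans hYη)
      have hq2 : (q : ℝ) ≤ x ^ (8 * (C + 4) * B) := by
        refine hqT.trans (le_of_eq ?_)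
        rw [← hxm, ← pow_mul]
      apply mul_le_mul_of_nonneg_right _ (by positivity)
      linarith
    · have h3 : Real.log ‖cc k τ‖ ≤ 2 * L := by
        have h4 : Real.log ‖cc k τ‖ ≤ Real.log (3 * T) :=
          Real.log_le_log (by linarith) (norm_cc_le k τ T hkT hτT)
        have h5 : Real.log (3 * T) = Real.log 3 + L := Real.log_mul (by norm_num) hTpos.ne'
        have h6 : Real.log 3 ≤ L := Real.log_le_log (by norm_num) hT3
        linarith
      have h4 : 2 * L = 2 * x * x ^ (m - 1) := by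
        rw [← hxm]
        have : x ^ m = x * x ^ (m - 1) := by
          rw [← pow_succ']
          congr 1
        rw [this]
        ring
      have h5 : 2 * x * x ^ (m - 1) ≤ 2 * x * Real.log Y := mul_le_mul_of_nonneg_left hlogY (by positivity)
      rw [hK]
      linarith
  · have hcase' : ‖cc k τ‖ ^ 2 < Real.sqrt Y := not_le.1 hcase
    have h3 := hEL k τ q r Y hq hY1.le
    rw [if_neg hk, sub_zero] at h3
    have h4 : 1 + |(k : ℝ)| + |τ| ≤ 3 * ‖cc k τ‖ := by
      have := abs_k_le k τ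
      have := abs_t_le k τ
      linarith [abs_nonneg τ]
    have h5 : ‖cc k τ‖ ≤ Y ^ (1 / 4 : ℝ) := by
      have e : Real.sqrt Y = (Y ^ (1 / 4 : ℝ)) ^ 2 := by
        rw [Real.sqrt_eq_rpow, ← Real.rpow_natCast, ← Real.rpow_mul hY0.le]
        norm_num
      rw [e] at hcase'
      exact (lt_of_pow_lt_pow_left₀ 2 (by positivity) hcase').le
    refine h3.trans ((?_ : _ ≤ Y ^ (1 - η)).trans hlast)
    calc C₁ * (1 + |(k : ℝ)| + |τ|) * Real.sqrt Y ≤ C₁ * (3 * Y ^ (1 / 4 : ℝ)) * Real.sqrt Y := by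
          apply mul_le_mul_of_nonneg_right _ (Real.sqrt_nonneg _)
          apply mul_le_mul_of_nonneg_left _ hC₁.le
          linarith
      _ = (3 * C₁) * (Y ^ (1 / 4 : ℝ) * Y ^ (1 / 2 : ℝ)) := by
          rw [Real.sqrt_eq_rpow]
          ring
      _ ≤ Y ^ η * (Y ^ (1 / 4 : ℝ) * Y ^ (1 / 2 : ℝ)) := by
          apply mul_le_mul_of_nonneg_right _ (by positivity)
          refine le_trans ?_ (hp3.trans hYη)
          have hE1 : 1 ≤ Real.exp (C * (1 + K) ^ C) := Real.one_le_exp (by positivity)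
          calc 3 * C₁ ≤ (32 + 7 * C₁) := by linarith
            _ ≤ (32 + 7 * C₁) * Real.exp (C * (1 + K) ^ C) := le_mul_of_one_le_right (by positivity) hE1
      _ ≤ Y ^ (1 - η) := by
          rw [← Real.rpow_add hY0, ← Real.rpow_add hY0]
          apply Real.rpow_le_rpow_of_exponent_le hY1.le
          linarith

end Pool.Agent.N106.GN
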